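import Pool.Agent.X186.IC.Clos

set_option autoImplicit false

/-!
Flows with two thirds of the coordinates equal to one in a class of graphs closed under
identification of vertices, edge-disjoint unions and sums along cuts with at most three edges.

A finite graph, loops and parallel edges allowed, has the vertex set `V` and the edge set `E`; the
ends of the edge `e` are `s e` and `t e`. The class is the class `Closure` of
`Pool/Agent/Results/MP_40718a_co/CoverClosure.lean`.
-/

open Finset

namespace Pool.Agent.Results.MP_65a8f1_co.CoverClosure

open Pool.Agent.X186.IC (six_closure)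
open Pool.Agent.Results.MP_40718a_co.CoverClosure (Closure)

/-- `φ` is a `Y_p`-flow: each of its `3 * p` coordinates is a flow with values in the integers modulo
two (a loop counts twice) and at each edge exactly `2 * p` coordinates are one -/
def IsYFlow {V E : Type} [DecidableEq V] [Fintype E] (s t : E → V) (p : ℕ)
    (φ : Fin (3 * p) → E → ZMod 2) : Prop :=
  (∀ i v, ∑ e, ((if s e = v then φ i e else 0) + (if t e = v then φ i e else 0)) = 0) ∧
    ∀ e, (univ.filter (fun i => φ i e = 1)).card = 2 * p

/-- Let `G` be a finite graph of the class `Closure`: the least class that contains all unions of two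
even subgraphs and all bridgeless graphs of treewidth at most four, of carving width at most five or
of cutwidth at most six, and that is closed under identification of vertices, edge-disjoint unions
(on a common set of vertices) and sums along cuts with at most three edges. Then `G` has a
`Y_p`-flow for every even number `p`; in particular for `p = 2`. -/
theorem result (V E : Type) [Fintype V] [DecidableEq V] [Fintype E] [DecidableEq E] (s t : E → V)
    (h : Closure s t) (p : ℕ) (hp : Even p) :
    ∃ φ : Fin (3 * p) → E → ZMod 2, IsYFlow s t p φ := by
  obtain ⟨q, rfl⟩ := hp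
  obtain ⟨C, hC, h4⟩ := Pool.Agent.Y425.BF6.Cor.mult (six_closure h) q
  have hq : 3 * (q + q) = 6 * q := by ring
  refine ⟨fun i e => if e ∈ C (Fin.cast hq i) then 1 else 0, fun i v => ?_, fun e => ?_⟩
  · have h := hC (Fin.cast hq i) v
    rw [← ZMod.natCast_eq_zero_iff_even] at h
    refine Eq.trans ?_ h
    push_cast
    rw [← sum_filter_add_sum_filter_not univ (fun e => e ∈ C (Fin.cast hq i))]
    have h1 : univ.filter (fun e => e ∈ C (Fin.cast hq i)) = C (Fin.cast hq i) := by
      ext e; simp
    rw [h1, sum_eq_zero (s := univ.filter (fun e => e ∉ C (Fin.cast hq i))), add_zero]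
    · refine sum_congr rfl fun e he => ?_
      rw [if_pos he]
    · intro e he
      rw [mem_filter] at he
      rw [if_neg he.2, ite_self, ite_self, add_zero]
  · have h1 : (univ.filter (fun i : Fin (3 * (q + q)) =>
        (if e ∈ C (Fin.cast hq i) then (1 : ZMod 2) else 0) = 1)).card =
        (univ.filter (fun i => e ∈ C i)).card := by
      refine card_bij (fun i _ => Fin.cast hq i) ?_ ?_ ?_
      · intro i hi
        rw [mem_filter] at hi ⊢
        refine ⟨mem_univ _, ?_⟩
        by_contra hcon
        have h2 := hi.2
        rw [if_neg hcon] at h2
        exact absurd h2 (by decide)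
      · intro i _ j _ hij
        exact Fin.cast_injective hq hij
      · intro i hi
        rw [mem_filter] at hi
        refine ⟨Fin.cast hq.symm i, ?_, ?_⟩
        · rw [mem_filter]
          refine ⟨mem_univ _, ?_⟩
          have h3 : Fin.cast hq (Fin.cast hq.symm i) = i := by
            ext; rfl
          rw [h3, if_pos hi.2]
        · ext; rfl
    rw [h1, h4 e]
    ring

end Pool.Agent.Results.MP_65a8f1_co.CoverClosure
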