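import Pool.Agent.X186.IC.Short
import Pool.Agent.X186.IC.DegSum

set_option autoImplicit false

/-!
Flows with two thirds of the coordinates equal to one in all bridgeless graphs with large
degree sums of non-adjacent vertices.

A finite graph, loops and parallel edges allowed, has the vertex set `V` and the edge set `E`; the
ends of the edge `e` are `s e` and `t e`.
-/

open Finset

namespace Pool.Agent.Results.MP_65a8f1_co.DegreeSums

open Pool.Agent.X186.IC (LargeDegreeSums six dic_deg n1_br)

/-- `φ` is a `Y_p`-flow: each of its `3 * p` coordinates is a flow with values in the integers modulo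
two (a loop counts twice) and at each edge exactly `2 * p` coordinates are one -/
def IsYFlow {V E : Type} [DecidableEq V] [Fintype E] (s t : E → V) (p : ℕ)
    (φ : Fin (3 * p) → E → ZMod 2) : Prop :=
  (∀ i v, ∑ e, ((if s e = v then φ i e else 0) + (if t e = v then φ i e else 0)) = 0) ∧
    ∀ e, (univ.filter (fun i => φ i e = 1)).card = 2 * p

/-- Let `G` be a finite graph such that no set of vertices is left by exactly one edge (no bridges).
Suppose that for some `r ≤ 4` and some `σ > 9 (r + 1)` every `r + 1` pairwise non-adjacent
vertices have numbers of neighbours with a sum of at least `σ`, and that the number `n` of vertices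
satisfies `(r + 1) n < k (σ + r + 1)`, where `k = 17, 15, 12, 9, 5` for `r = 0, 1, 2, 3, 4`
(`LargeDegreeSums`). Then `G`
has a `Y_p`-flow for every even number `p`; in particular for `p = 2`. -/
theorem result (V E : Type) [Fintype V] [DecidableEq V] [Fintype E] [DecidableEq E] (s t : E → V)
    (hbridge : ∀ Z : Finset V, (univ.filter fun e => ¬ (s e ∈ Z ↔ t e ∈ Z)).card ≠ 1)
    (h : LargeDegreeSums s t)
    (p : ℕ) (hp : Even p) : ∃ φ : Fin (3 * p) → E → ZMod 2, IsYFlow s t p φ := by
  obtain ⟨q, rfl⟩ := hp
  obtain ⟨C, hC, h4⟩ := Pool.Agent.Y425.BF6.Cor.mult (six (dic_deg (n1_br hbridge) h)) q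
  have hq : 3 * (q + q) = 6 * q := by ring
  refine ⟨fun i e => if e ∈ C (Fin.cast hq i) then 1 else 0, fun i v => ?_, fun e => ?_⟩
  · have h := hC (Fin.cast hq i) v
    rw [← ZMod.natCast_eq_zero_iff_even] at h
    refine Eq.trans ?_ h
    push_cast
    rw [← sum_filter_add_sum_filter_not univ (fun e => e ∈ C (Fin.cast hq i))]
    have h1 : univ.filter (fun e => e ∈ C (Fin.cast hq i)) = C (Fin.cast hq i) := by
      ext e; simp
    rw [h1, sum_eq_zero (s := univ.filter (fun e => e ∉ C (Fin.cast hq i))), add_zero]
    · refine sum_congr rfl fun e he => ?_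
      rw [if_pos he]
    · intro e he
      rw [mem_filter] at he
      rw [if_neg he.2, ite_self, ite_self, add_zero]
  · have h1 : (univ.filter (fun i : Fin (3 * (q + q)) =>
        (if e ∈ C (Fin.cast hq i) then (1 : ZMod 2) else 0) = 1)).card =
        (univ.filter (fun i => e ∈ C i)).card := by
      refine card_bij (fun i _ => Fin.cast hq i) ?_ ?_ ?_
      · intro i hi
        rw [mem_filter] at hi ⊢
        refine ⟨mem_univ _, ?_⟩
        by_contra hcon
        have h2 := hi.2
        rw [if_neg hcon] at h2
        exact absurd h2 (by decide)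
      · intro i _ j _ hij
        exact Fin.cast_injective hq hij
      · intro i hi
        rw [mem_filter] at hi
        refine ⟨Fin.cast hq.symm i, ?_, ?_⟩
        · rw [mem_filter]
          refine ⟨mem_univ _, ?_⟩
          have h3 : Fin.cast hq (Fin.cast hq.symm i) = i := by
            ext; rfl
          rw [h3, if_pos hi.2]
        · ext; rfl
    rw [h1, h4 e]
    ring

end Pool.Agent.Results.MP_65a8f1_co.DegreeSums
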